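import Pool.Agent.TH957.Lang.Defs

/-!
Finiteness of sparse points is equivalent to the absence of rational curves.
-/

set_option autoImplicit false

namespace Pool.Agent.TH957.Lang

open MvPolynomial NumberField Filter Pool.Agent.H159R3.Exp Pool.Agent.H458.Sp
open scoped LinearAlgebra.Projectivization Topology

variable {K : Type} [Field K] {ι : Type} {n : ℕ}

/-- a polynomial over a number field has a nonzero multiple with integral coefficients -/
theorem exists_integral_multiple {L : Type} [Field L] [NumberField L] {s : Type}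
    (p : MvPolynomial s L) : ∃ (D : 𝓞 L) (G : MvPolynomial s (𝓞 L)), D ≠ 0 ∧
      MvPolynomial.map (algebraMap (𝓞 L) L) G = C (algebraMap (𝓞 L) L D) * p := by
  classical
  obtain ⟨⟨D, hD⟩, hDp⟩ := IsLocalization.exist_integer_multiples (nonZeroDivisors (𝓞 L))
    p.support (fun α => p.coeff α)
  have h1 : ∀ α, ∃ g : 𝓞 L, α ∈ p.support → algebraMap (𝓞 L) L g = algebraMap (𝓞 L) L D *
      p.coeff α := by
    intro α
    by_cases hα : α ∈ p.support
    · obtain ⟨g, hg⟩ := hDp α hα
      refine ⟨g, fun _ => ?_⟩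
      rw [hg]
      simp [Algebra.smul_def]
    · exact ⟨0, fun h => absurd h hα⟩
  choose g hg using h1
  refine ⟨D, ∑ α ∈ p.support, monomial α (g α), nonZeroDivisors.ne_zero hD, ?_⟩
  rw [map_sum]
  conv_rhs => rw [p.as_sum, Finset.mul_sum]
  refine Finset.sum_congr rfl fun α hα => ?_
  rw [map_monomial, hg α hα, C_mul_monomial]

/-- polynomial curves through a point, from the absence of rational curves -/
theorem no_curve' {L : Type} [Field L] [NumberField L] (τ : 𝓞 L →+* ℂ)
    (hτinj : Function.Injective τ) (FF : Set (MvPolynomial (Fin (n + 1)) (𝓞 L)))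
    (hom : ∀ F ∈ FF, ∃ e, F.IsHomogeneous e)
    (hyp : ∀ q : Fin (n + 1) → Polynomial ℂ, (∀ z, ∃ i, (q i).eval z ≠ 0) →
      (∀ F ∈ FF, ∀ z, MvPolynomial.eval (fun i => (q i).eval z) (MvPolynomial.map τ F) = 0) →
      ∀ z w i j, (q i).eval z * (q j).eval w = (q j).eval z * (q i).eval w)
    (x : Fin (n + 1) → 𝓞 L) (hx0 : x ≠ 0)
    (p : Fin (n + 1) → Polynomial (𝓞 L)) (hp1 : ∀ i, (p i).eval 1 = x i)
    (hp : ∀ F ∈ FF, aeval p F = 0) (i j : Fin (n + 1)) :
    p i * Polynomial.C (x j) = p j * Polynomial.C (x i) := by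
  classical
  set P : Fin (n + 1) → Polynomial ℂ := fun i => (p i).map τ with hP
  have hP1 : ∀ i, (P i).eval 1 = τ (x i) := by
    intro i
    rw [hP, ← hp1 i]
    simp only
    rw [← map_one τ, Polynomial.eval_map, Polynomial.eval₂_at_apply]
  obtain ⟨i0, hi0⟩ : ∃ i, x i ≠ 0 := by
    by_contra h
    push Not at h
    exact hx0 (funext h)
  have hPi0 : P i0 ≠ 0 := by
    intro h
    have := hP1 i0
    rw [h, Polynomial.eval_zero] at this
    exact hi0 (hτinj (by rw [map_zero]; exact this.symm))
  -- greatest common divisor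
  obtain ⟨g, hg⟩ := (IsPrincipalIdealRing.principal (Ideal.span (Set.range P))).principal
  have hg' : Ideal.span (Set.range P) = Ideal.span {g} := hg
  have hdvd : ∀ i, ∃ q, P i = g * q := by
    intro i
    have : P i ∈ Ideal.span (Set.range P) := Ideal.subset_span ⟨i, rfl⟩
    rw [hg', Ideal.mem_span_singleton] at this
    exact this
  choose q hq using hdvd
  have hg0 : g ≠ 0 := by
    intro h
    apply hPi0
    rw [hq i0, h, zero_mul]
  obtain ⟨a, ha⟩ : ∃ a : Fin (n + 1) → Polynomial ℂ, ∑ i, a i * P i = g := by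
    rw [← Ideal.mem_span_range_iff_exists_fun, hg']
    exact Ideal.mem_span_singleton_self g
  have hbez : ∑ i, a i * q i = 1 := by
    apply mul_left_cancel₀ hg0
    rw [Finset.mul_sum, mul_one]
    calc ∑ i, g * (a i * q i) = ∑ i, a i * P i := by
          refine Finset.sum_congr rfl fun i _ => ?_
          rw [hq i]; ring
      _ = g := ha
  -- the rational curve
  have key : ∀ F ∈ FF, ∀ z : ℂ,
      MvPolynomial.eval (fun i => (q i).eval z) (MvPolynomial.map τ F) = 0 := by
    intro F hFF z
    obtain ⟨e, he⟩ := hom F hFF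
    have h1 : aeval P (MvPolynomial.map τ F) = 0 := by
      have h2 : aeval P (MvPolynomial.map τ F) = (Polynomial.mapRingHom τ) (aeval p F) := by
        rw [aeval_def, aeval_def, MvPolynomial.hom_eval₂, MvPolynomial.eval₂_map]
        congr 1
        ext a
        simp
      rw [h2, hp F hFF, map_zero]
    have h3 : aeval q (MvPolynomial.map τ F) = 0 := by
      have h4 : P = fun i => g * q i := funext hq
      rw [h4, aeval_smul_homog _ (he.map τ) g q] at h1
      rcases mul_eq_zero.1 h1 with h5 | h5
      · exact absurd h5 (pow_ne_zero e hg0)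
      · exact h5
    have h6 := congrArg (Polynomial.evalRingHom z) h3
    rw [map_zero, aeval_def, MvPolynomial.hom_eval₂] at h6
    rw [← h6]
    unfold MvPolynomial.eval
    show MvPolynomial.eval₂ _ _ _ = _
    congr 1
    ext a
    simp
  have hno : ∀ z : ℂ, ∃ i, (q i).eval z ≠ 0 := by
    intro z
    by_contra h
    push Not at h
    have h1 := congrArg (Polynomial.eval z) hbez
    rw [Polynomial.eval_finsetSum, Polynomial.eval_one] at h1
    simp [h] at h1
  have hcon := hyp q hno key
  -- back to `p`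
  have h1 : P i * Polynomial.C (τ (x j)) = P j * Polynomial.C (τ (x i)) := by
    apply Polynomial.funext
    intro z
    rw [Polynomial.eval_mul, Polynomial.eval_mul, Polynomial.eval_C, Polynomial.eval_C,
      ← hP1 j, ← hP1 i, hq i, hq j]
    simp only [Polynomial.eval_mul]
    have h2 := hcon z 1 i j
    linear_combination (g.eval z * g.eval 1) * h2
  apply Polynomial.map_injective τ hτinj
  rw [Polynomial.map_mul, Polynomial.map_mul, Polynomial.map_C, Polynomial.map_C]
  exact h1

/-- padding the expansions -/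
theorem sparseVec_mono {L : Type} [Field L] [NumberField L] {b r : ℕ} {B B' : ℝ} (hB : B ≤ B')
    {x : Fin (n + 1) → 𝓞 L} (h : SparseVec b r B x) : SparseVec b r B' x := by
  obtain ⟨m, v, hv, hx⟩ := h
  exact ⟨m, v, fun j i => (hv j i).trans hB, hx⟩

theorem finite_of_noRational (σ : K →+* ℂ) [Finite ι] (F : ι → MvPolynomial (Fin (n + 1)) K)
    (hF : ∀ i, ∃ d, (F i).IsHomogeneous d) (h : NoRationalCurve σ F)
    (L : Type) [Field L] [NumberField L] [Algebra K L] [Algebra.IsAlgebraic K L]
    (r : ℕ) (B : ℝ) : (sparse F L r B).Finite := by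
  classical
  -- an embedding of `L`
  let _ := σ.toAlgebra
  let φ : L →ₐ[K] ℂ := IsAlgClosed.lift
  have hφ : ∀ a, φ (algebraMap K L a) = σ a := fun a => φ.commutes a
  let τ : 𝓞 L →+* ℂ := (φ : L →+* ℂ).comp (algebraMap (𝓞 L) L)
  have hτinj : Function.Injective τ :=
    (φ : L →+* ℂ).injective.comp (FaithfulSMul.algebraMap_injective (𝓞 L) L)
  have hinj : Function.Injective (algebraMap (𝓞 L) L) := FaithfulSMul.algebraMap_injective (𝓞 L) L
  -- integral equations
  have h1 : ∀ i, ∃ (D : 𝓞 L) (G : MvPolynomial (Fin (n + 1)) (𝓞 L)), D ≠ 0 ∧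
      MvPolynomial.map (algebraMap (𝓞 L) L) G =
        C (algebraMap (𝓞 L) L D) * MvPolynomial.map (algebraMap K L) (F i) :=
    fun i => exists_integral_multiple _
  choose D G hD hG using h1
  choose d hd using hF
  have hGhom : ∀ i, (G i).IsHomogeneous (d i) := by
    intro i
    have h2 : (MvPolynomial.map (algebraMap (𝓞 L) L) (G i)).IsHomogeneous (d i) := by
      rw [hG i]
      have h3 := (isHomogeneous_C (Fin (n + 1)) (algebraMap (𝓞 L) L (D i))).mul
        ((hd i).map (algebraMap K L))
      rwa [zero_add] at h3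
    intro α hα
    apply h2
    rw [coeff_map]
    intro h0
    apply hα
    apply hinj
    rw [h0, map_zero]
  cases nonempty_fintype ι
  let d0 : ℕ := 1 + ∑ i, d i
  let A : ℝ := 1 + ∑ i, nrm (G i)
  have hA : 1 ≤ A := by
    have : 0 ≤ ∑ i, nrm (G i) := Finset.sum_nonneg fun i _ => nrm_nonneg _
    simp only [A]
    linarith
  have hFF : ∀ P ∈ Set.range G, (∃ e, e ≤ d0 ∧ P.IsHomogeneous e) ∧ nrm P ≤ A := by
    rintro _ ⟨i, rfl⟩
    refine ⟨⟨d i, ?_, hGhom i⟩, ?_⟩
    · have : d i ≤ ∑ i, d i := Finset.single_le_sum (fun i _ => Nat.zero_le _) (Finset.mem_univ i)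
      simp only [d0]
      omega
    · have : nrm (G i) ≤ ∑ i, nrm (G i) :=
        Finset.single_le_sum (f := fun i => nrm (G i)) (fun i _ => nrm_nonneg _)
          (Finset.mem_univ i)
      simp only [A]
      linarith
  rcases Nat.eq_zero_or_pos r with hr | hr
  · refine Set.Finite.subset Set.finite_empty ?_
    rintro P ⟨x, hx, -, -, b, -, m, v, -, hxe⟩
    subst hr
    exfalso
    apply hx
    funext j
    rw [hxe j]
    simp
  · let B' : ℝ := max B 1
    have hB' : 1 ≤ B' := le_max_right _ _
    refine (smallPoints_finite (k := L) n (Real.exp ((8 * d0 * (6 + 8 * d0 + 4 * Real.log A)) ^ r *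
        (1 + Real.log B' + Real.log (A * (r * B') ^ d0))))).subset ?_
    rintro P ⟨x, hx, rfl, hzero, b, hb, hsp⟩
    obtain ⟨m, v, hv, hxe⟩ := sparseVec_mono (le_max_left B 1) hsp
    have hx0 : x ≠ 0 := (ne_zero_iff x).1 hx
    have hzero' : ∀ P ∈ Set.range G, aeval x P = 0 := by
      rintro _ ⟨i, rfl⟩
      apply hinj
      rw [map_zero]
      have h2 : algebraMap (𝓞 L) L (aeval x (G i)) =
          aeval (fun j => algebraMap (𝓞 L) L (x j))
            (MvPolynomial.map (algebraMap (𝓞 L) L) (G i)) := by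
        rw [aeval_def, aeval_def, MvPolynomial.hom_eval₂, MvPolynomial.eval₂_map]
        rfl
      rw [h2, hG i, map_mul, aeval_def (p := MvPolynomial.map (algebraMap K L) (F i)),
        MvPolynomial.eval₂_map]
      have h3 : eval₂ ((algebraMap L L).comp (algebraMap K L))
          (fun j => algebraMap (𝓞 L) L (x j)) (F i) = 0 := hzero i
      rw [h3, mul_zero]
    rcases dichotomy_all (Set.range G) d0 (by simp only [d0]; omega) A hA hFF b hb r hr B' hB' m v
      hv x hx0 hxe hzero' with ⟨p, hp1, hp2, i, j, hij⟩ | ⟨y, hy0, hxy, hyB⟩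
    · exfalso
      apply hij
      refine no_curve' τ hτinj (Set.range G) (fun P hP => ?_) ?_ x hx0 p hp1 hp2 i j
      · obtain ⟨i, rfl⟩ := hP
        exact ⟨d i, hGhom i⟩
      · intro q hq hqF z w i j
        obtain ⟨c, hc⟩ := h q hq (fun t i => by
          have h2 := hqF (G i) ⟨i, rfl⟩ t
          have h3 : MvPolynomial.map τ (G i) =
              C (τ (D i)) * MvPolynomial.map σ (F i) := by
            have h4 : MvPolynomial.map τ (G i) = MvPolynomial.map (φ : L →+* ℂ)
                (MvPolynomial.map (algebraMap (𝓞 L) L) (G i)) := by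
              rw [MvPolynomial.map_map]
            have h5 : (φ : L →+* ℂ).comp (algebraMap K L) = σ := RingHom.ext hφ
            rw [h4, hG i, map_mul, MvPolynomial.map_C, MvPolynomial.map_map, h5]
            rfl
          rw [h3, map_mul, eval_C] at h2
          rcases mul_eq_zero.1 h2 with h4 | h4
          · exact absurd (hτinj (by rw [h4, map_zero])) (hD i)
          · rwa [← eval₂_eq_eval_map] at h4) z w
        have h5 := congrFun hc i
        have h6 := congrFun hc j
        simp only [Pi.smul_apply, smul_eq_mul] at h5 h6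
        rw [h5, h6]
        ring
    · exact ⟨y, (ne_zero_iff y).2 hy0, mk_eq x y _ _ hxy, hyB⟩

end Pool.Agent.TH957.Lang
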