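import Pool.Agent.TH957.Lang.Curves
import Pool.Agent.TH957.Lang.Points

/-!
Rational curves give infinitely many sparse points.
-/

set_option autoImplicit false

namespace Pool.Agent.TH957.Lang

open MvPolynomial NumberField Filter Pool.Agent.H159R3.Exp Pool.Agent.H458.Sp
open scoped LinearAlgebra.Projectivization Topology

variable {K : Type} [Field K] {ι : Type} {n : ℕ}

theorem noRational_of_sparse [NumberField K] (σ : K →+* ℂ) (F : ι → MvPolynomial (Fin (n + 1)) K)
    (hF : ∀ i, ∃ d, (F i).IsHomogeneous d) (h : SparseFinite F) : NoRationalCurve σ F := by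
  classical
  intro Q hQ hmem s t
  by_contra hcon
  push Not at hcon
  obtain ⟨j, k, hR⟩ : ∃ j k, Q j * Polynomial.C ((Q k).eval 1) -
      Q k * Polynomial.C ((Q j).eval 1) ≠ 0 := by
    by_contra hall
    push Not at hall
    obtain ⟨l, hl⟩ := hQ 1
    have hp : ∀ j z, (Q j).eval z * (Q l).eval 1 = (Q l).eval z * (Q j).eval 1 := by
      intro j z
      have h1 := congrArg (Polynomial.eval z) (hall j l)
      simp only [Polynomial.eval_sub, Polynomial.eval_mul, Polynomial.eval_C,
        Polynomial.eval_zero] at h1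
      linear_combination h1
    have hlt : (Q l).eval t ≠ 0 := by
      intro h0
      obtain ⟨l', hl'⟩ := hQ t
      have h1 := hp l' t
      rw [h0, zero_mul] at h1
      rcases mul_eq_zero.1 h1 with h2 | h2
      · exact hl' h2
      · exact hl h2
    apply hcon ((Q l).eval s / (Q l).eval t)
    funext j
    simp only [Pi.smul_apply, smul_eq_mul]
    rw [div_mul_eq_mul_div, eq_div_iff hlt]
    apply mul_right_cancel₀ hl
    have h1 := hp j s
    have h2 := hp j t
    linear_combination (Q l).eval t * h1 - (Q l).eval s * h2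
  set R : Polynomial ℂ := Q j * Polynomial.C ((Q k).eval 1) - Q k * Polynomial.C ((Q j).eval 1)
    with hRdef
  obtain ⟨k1, hk1⟩ : ∃ k1 : ℕ, R.eval (2 ^ k1) ≠ 0 := by
    by_contra hall
    push Not at hall
    apply hR
    apply Polynomial.eq_zero_of_infinite_isRoot
    refine Set.Infinite.mono ?_ (Set.Finite.infinite_compl (Set.finite_singleton (0 : ℂ)))
    intro z hz
    exact (Laur.poly R).zero_of_zero hall z hz
  -- descend to a number field
  let _ := σ.toAlgebra
  obtain ⟨L, _, _, _, _, v', hv', hv'F, hv'W⟩ := descend F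
    (X (Sum.inr j) * X (Sum.inl k) - X (Sum.inr k) * X (Sum.inl j))
    (fun t j => (Q j).eval t) (fun j => Laur.poly (Q j)) (fun i t _ => hmem t i) k1 (by
      simp only [map_sub, map_mul, aeval_X, Sum.elim_inl, Sum.elim_inr]
      simpa [hRdef] using hk1)
  simp only [map_sub, map_mul, aeval_X, Sum.elim_inl, Sum.elim_inr] at hv'W
  obtain ⟨M, Q', hQ'⟩ := Laur.common v' hv'
  let N : ℕ := Finset.univ.sup (fun j => (Q' j).natDegree) + 1
  have hN : ∀ j, (Q' j).natDegree < N := fun j =>
    Nat.lt_succ_of_le (Finset.le_sup (f := fun j => (Q' j).natDegree) (Finset.mem_univ j))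
  obtain ⟨⟨D, hD⟩, hDQ⟩ := IsLocalization.exist_integer_multiples_of_finite
    (nonZeroDivisors (𝓞 L)) (fun p : Fin (n + 1) × Fin N => (Q' p.1).coeff p.2)
  have hD0 : D ≠ 0 := nonZeroDivisors.ne_zero hD
  have hc : ∀ p : Fin (n + 1) × Fin N, ∃ c : 𝓞 L, algebraMap (𝓞 L) L c =
      algebraMap (𝓞 L) L D * (Q' p.1).coeff p.2 := by
    intro p
    obtain ⟨c, hc⟩ := hDQ p
    exact ⟨c, by rw [hc]; simp [Algebra.smul_def]⟩
  choose c hc using hc
  have hinj : Function.Injective (algebraMap (𝓞 L) L) := FaithfulSMul.algebraMap_injective (𝓞 L) L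
  have hDL : algebraMap (𝓞 L) L D ≠ 0 := by
    intro h0
    apply hD0
    apply hinj
    rw [h0, map_zero]
  -- the points
  let x : ℕ → Fin (n + 1) → 𝓞 L := fun m j => ∑ l : Fin N, ((2 : ℕ) : 𝓞 L) ^ (m * l) * c (j, l)
  have hx : ∀ m j, algebraMap (𝓞 L) L (x m j) =
      (algebraMap (𝓞 L) L D * (2 ^ m) ^ M) * v' (2 ^ m) j := by
    intro m j
    rw [hQ' _ (pow_ne_zero m two_ne_zero) j, Polynomial.eval_eq_sum_range' (hN j),
      Finset.sum_range]
    have h2 : ((2 : L) ^ m) ^ M ≠ 0 := pow_ne_zero _ (pow_ne_zero _ two_ne_zero)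
    simp only [x, map_sum, map_mul, hc]
    rw [mul_div_assoc', mul_right_comm, mul_div_assoc, div_self h2, mul_one, Finset.mul_sum]
    refine Finset.sum_congr rfl fun l _ => ?_
    rw [map_pow, map_natCast, pow_mul]
    push_cast
    ring
  have hx' : ∀ m, (fun j => algebraMap (𝓞 L) L (x m j)) =
      fun j => (algebraMap (𝓞 L) L D * (2 ^ m) ^ M) * v' (2 ^ m) j := fun m => funext (hx m)
  have hg : ∀ m : ℕ, algebraMap (𝓞 L) L D * (2 ^ m) ^ M ≠ 0 := fun m =>
    mul_ne_zero hDL (pow_ne_zero _ (pow_ne_zero _ two_ne_zero))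
  have hXF : ∀ m i, aeval (fun j => algebraMap (𝓞 L) L (x m j)) (F i) = 0 := by
    intro m i
    obtain ⟨d, hd⟩ := hF i
    rw [hx' m, aeval_smul_homog (F i) hd, hv'F i _ (pow_ne_zero m two_ne_zero), mul_zero]
  -- bound for the digits
  obtain ⟨B, hB⟩ : ∃ B : ℝ, ∀ p, hs (c p) ≤ B :=
    ⟨∑ p, hs (c p), fun p => Finset.single_le_sum (f := fun p => hs (c p))
      (fun p _ => hs_nonneg _) (Finset.mem_univ p)⟩
  have hfin := h L N B
  -- the good indices
  obtain ⟨l0, hl0⟩ : ∃ l0, v' 1 l0 ≠ 0 := by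
    by_contra hall
    push Not at hall
    apply hv'W
    rw [hall, hall]
    ring
  let S : Set ℕ := {m | v' (2 ^ m) l0 ≠ 0}
  have hS : S.Infinite := by
    have h1 : {m : ℕ | v' (2 ^ m) l0 = 0}.Finite := (hv' l0).finite_zeros ⟨1, one_ne_zero, hl0⟩
    exact h1.infinite_compl
  have hne : ∀ m ∈ S, (fun j => algebraMap (𝓞 L) L (x m j)) ≠ 0 := by
    intro m hm h0
    apply hm
    have h1 := congrFun h0 l0
    simp only [Pi.zero_apply] at h1
    rw [hx] at h1
    exact (mul_eq_zero.1 h1).resolve_left (hg m)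
  -- a point that is hit infinitely often
  have key : ∃ m0 ∈ S, {m ∈ S | ∃ a : L, (fun j => algebraMap (𝓞 L) L (x m j)) =
      a • fun j => algebraMap (𝓞 L) L (x m0 j)}.Infinite := by
    by_contra hall
    push Not at hall
    apply hS
    have h1 : S ⊆ ⋃ P ∈ sparse F L N B, {m ∈ S | ∃ hm : (fun j => algebraMap (𝓞 L) L (x m j)) ≠ 0,
        P = Projectivization.mk L (fun j => algebraMap (𝓞 L) L (x m j)) hm} := by
      intro m hm
      refine Set.mem_biUnion (x := Projectivization.mk L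
        (fun j => algebraMap (𝓞 L) L (x m j)) (hne m hm)) ?_ ⟨hm, hne m hm, rfl⟩
      refine ⟨x m, hne m hm, rfl, hXF m, 2, le_refl 2, fun l => m * l, fun l j => c (j, l),
        fun l j => hB _, fun j => rfl⟩
    refine Set.Finite.subset (hfin.biUnion fun P _ => ?_) h1
    by_cases hP : ∃ m0 ∈ S, ∃ hm : (fun j => algebraMap (𝓞 L) L (x m0 j)) ≠ 0,
        P = Projectivization.mk L (fun j => algebraMap (𝓞 L) L (x m0 j)) hm
    · obtain ⟨m0, hm0, hm0', rfl⟩ := hP
      refine (hall m0 hm0).subset ?_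
      rintro m ⟨hm, hm', heq⟩
      refine ⟨hm, ?_⟩
      obtain ⟨a, ha⟩ := (Projectivization.mk_eq_mk_iff' L _ _ hm' hm0').1 heq.symm
      exact ⟨a, ha.symm⟩
    · refine Set.Finite.subset Set.finite_empty ?_
      rintro m ⟨hm, hm', heq⟩
      exact hP ⟨m, hm, hm', heq⟩
  obtain ⟨m0, hm0, hinf⟩ := key
  set y : Fin (n + 1) → L := fun j => algebraMap (𝓞 L) L (x m0 j) with hy
  obtain ⟨q, hq⟩ : ∃ q, y q ≠ 0 := Function.ne_iff.mp (hne m0 hm0)
  -- all points of the curve are proportional to `y`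
  have hprop : ∀ a b, ∀ t, t ≠ 0 → v' t a * y b = v' t b * y a := by
    intro a b t ht
    by_contra hne'
    have hL : Laur (fun t => v' t a * y b + v' t b * (-y a)) :=
      ((hv' a).mul (Laur.const _)).add ((hv' b).mul (Laur.const _))
    have hfz := hL.finite_zeros ⟨t, ht, by
      intro h0
      apply hne'
      linear_combination h0⟩
    apply hinf
    refine hfz.subset ?_
    rintro m ⟨-, e, he⟩
    have h1 := congrFun he a
    have h2 := congrFun he b
    simp only [Pi.smul_apply, smul_eq_mul] at h1 h2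
    rw [hx] at h1 h2
    change v' (2 ^ m) a * y b + v' (2 ^ m) b * (-y a) = 0
    apply mul_left_cancel₀ (hg m)
    rw [mul_zero]
    linear_combination y b * h1 - y a * h2
  apply hv'W
  have ht2 : ((2 : L) ^ k1) ≠ 0 := pow_ne_zero _ two_ne_zero
  have e1 := hprop j q 1 one_ne_zero
  have e2 := hprop k q 1 one_ne_zero
  have e3 := hprop j q _ ht2
  have e4 := hprop k q _ ht2
  apply mul_right_cancel₀ (mul_ne_zero hq hq)
  rw [zero_mul]
  linear_combination v' 1 k * y q * e3 - v' 1 j * y q * e4 + v' (2 ^ k1) q * y j * e2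
    - v' (2 ^ k1) q * y k * e1

end Pool.Agent.TH957.Lang
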