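import Pool.Agent.TH957.Lang.Defs

/-!
Entire curves of exponential type exist if and only if rational curves exist.
-/

set_option autoImplicit false

namespace Pool.Agent.TH957.Lang

open MvPolynomial NumberField Filter Pool.Agent.H159R3.Exp Pool.Agent.H458.Sp
open Pool.Agent.H159R3.NV
open scoped LinearAlgebra.Projectivization Topology

variable {K : Type} [Field K] {ι : Type} {n : ℕ}

theorem expPoly_of_polynomial (Q : Fin (n + 1) → Polynomial ℂ) :
    ExpPoly (fun z j => (Q j).eval z) := by
  refine ⟨0, fun i => i.elim0, fun j => Polynomial.aeval (X 0) (Q j), fun i => i.elim0, ?_⟩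
  intro z j
  have h1 : eval (Fin.cons z fun i : Fin 0 => Complex.exp ((fun i => i.elim0 : Fin 0 → ℂ → ℂ) i z))
      (Polynomial.aeval (X 0 : MvPolynomial (Fin (0 + 1)) ℂ) (Q j)) =
      Polynomial.aeval (eval (Fin.cons z fun i : Fin 0 => Complex.exp
        ((fun i => i.elim0 : Fin 0 → ℂ → ℂ) i z)) (X 0 : MvPolynomial (Fin (0 + 1)) ℂ)) (Q j) := by
    rw [Polynomial.aeval_def, Polynomial.aeval_def, Polynomial.hom_eval₂]
    congr 1
    ext a
    simp
  rw [h1, eval_X, Fin.cons_zero, Polynomial.coe_aeval_eq_eval]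

theorem noRational_of_exp (σ : K →+* ℂ) (F : ι → MvPolynomial (Fin (n + 1)) K)
    (h : ExpHyperbolic σ F) : NoRationalCurve σ F := by
  intro Q hQ hF s t
  refine h (fun z j => (Q j).eval z) ⟨?_, fun z => z, differentiable_id, ⟨0, 1, zero_ne_one⟩,
    expPoly_of_polynomial Q⟩ ?_ hF s t
  · rw [differentiable_pi]
    intro j
    exact (Q j).differentiable
  · intro z h0
    obtain ⟨j, hj⟩ := hQ z
    exact hj (congrFun h0 j)

/-- if all Wronskians of coordinates vanish, the curve is constant -/
theorem wronskian_ne {f : ℂ → Fin (n + 1) → ℂ} (hf : Differentiable ℂ f) (hf0 : ∀ z, f z ≠ 0)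
    {z1 z2 : ℂ} (hne : ∀ c : ℂ, f z1 ≠ c • f z2) :
    ∃ j k, ∃ z, f z k * deriv (fun z => f z j) z - f z j * deriv (fun z => f z k) z ≠ 0 := by
  have hfj : ∀ j, Differentiable ℂ (fun z => f z j) := fun j => by
    rw [differentiable_pi] at hf
    exact hf j
  by_contra hcon
  push Not at hcon
  obtain ⟨k, hk⟩ := Function.ne_iff.mp (hf0 z2)
  have hk' : f z2 k ≠ 0 := hk
  have hc : ∀ j, ∀ z, f z j * f z2 k = f z k * f z2 j := by
    intro j
    -- the quotient `f j / f k` has zero derivative where `f k ≠ 0`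
    have hopen : ∀ᶠ z in 𝓝 z2, f z k ≠ 0 :=
      (hfj k).continuous.continuousAt.eventually_ne hk'
    obtain ⟨ε, hε, hball⟩ := Metric.eventually_nhds_iff_ball.1 hopen
    have hconst : ∀ z ∈ Metric.ball z2 ε, f z j / f z k = f z2 j / f z2 k := by
      intro z hz
      have hd : DifferentiableOn ℂ (fun z => f z j / f z k) (Metric.ball z2 ε) := by
        intro y hy
        exact ((hfj j y).div (hfj k y) (hball y hy)).differentiableWithinAt
      have h0 : Set.EqOn (deriv (fun z => f z j / f z k)) 0 (Metric.ball z2 ε) := by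
        intro y hy
        rw [deriv_fun_div (hfj j y) (hfj k y) (hball y hy)]
        have h1 := hcon j k y
        simp only [Pi.zero_apply]
        rw [div_eq_zero_iff]
        left
        linear_combination h1
      exact Metric.isOpen_ball.is_const_of_deriv_eq_zero
        (convex_ball z2 ε).isPreconnected hd h0 hz (Metric.mem_ball_self hε)
    -- identity theorem
    have hA : AnalyticOnNhd ℂ (fun z => f z j * f z2 k - f z k * f z2 j) Set.univ :=
      ((((hfj j).mul_const _).sub ((hfj k).mul_const _)).differentiableOn).analyticOnNhd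
        isOpen_univ
    have hz : (fun z => f z j * f z2 k - f z k * f z2 j) =ᶠ[𝓝 z2] 0 := by
      filter_upwards [Metric.ball_mem_nhds z2 hε] with z hz
      have h1 := hconst z hz
      have h2 := hball z hz
      rw [div_eq_div_iff h2 hk'] at h1
      simp only [Pi.zero_apply]
      linear_combination h1
    have h3 := hA.eqOn_zero_of_preconnected_of_eventuallyEq_zero isPreconnected_univ
      (Set.mem_univ z2) hz
    intro z
    have h4 := h3 (Set.mem_univ z)
    simp only [Pi.zero_apply] at h4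
    linear_combination h4
  apply hne (f z1 k / f z2 k)
  funext j
  rw [Pi.smul_apply, smul_eq_mul, div_mul_eq_mul_div, eq_div_iff hk']
  exact hc j z1

theorem exp_of_noRational (σ : K →+* ℂ) (F : ι → MvPolynomial (Fin (n + 1)) K)
    (hF : ∀ i, ∃ d, (F i).IsHomogeneous d) (h : NoRationalCurve σ F) : ExpHyperbolic σ F := by
  classical
  intro f hf hf0 hfF z1 z2
  by_contra hcon
  push Not at hcon
  obtain ⟨hfd, h', hh, hhc, hfE⟩ := hf
  have hfj : ∀ j, Differentiable ℂ (fun z => f z j) := fun j => by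
    rw [differentiable_pi] at hfd
    exact hfd j
  have hfj' : ∀ j, Differentiable ℂ (deriv (fun z => f z j)) := fun j =>
    ((hfj j).contDiff (n := 2)).differentiable_deriv_two
  obtain ⟨j, k, y, hy⟩ := wronskian_ne hfd hf0 hcon
  have hWd : Differentiable ℂ
      (fun z => f z k * deriv (fun z => f z j) z - f z j * deriv (fun z => f z k) z) :=
    ((hfj k).mul (hfj' j)).sub ((hfj j).mul (hfj' k))
  obtain ⟨a, ha⟩ := comp_ne hWd ⟨y, hy⟩ hh hhc
  -- the derivative of `h'` is not identically zero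
  have hh' : Differentiable ℂ (deriv h') := (hh.contDiff (n := 2)).differentiable_deriv_two
  obtain ⟨b, hb⟩ : ∃ b, deriv h' b ≠ 0 := by
    by_contra hall
    push Not at hall
    obtain ⟨z, w, hzw⟩ := hhc
    exact hzw (is_const_of_deriv_eq_zero hh hall z w)
  obtain ⟨z0, hz0, hz0'⟩ := ((ev_ne (hWd.comp hh) ha 0).and (ev_ne hh' hb 0)).exists
  simp only [Function.comp] at hz0
  -- the linear form
  let f1 : ℂ → Fin (n + 1) → ℂ := fun z => f (h' z)
  let w : Fin (n + 1) → ℂ := fun l =>
    (if l = j then f1 z0 k else 0) - (if l = k then f1 z0 j else 0)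
  have hw : ∀ x : Fin (n + 1) → ℂ, ∑ l, w l * x l = f1 z0 k * x j - f1 z0 j * x k := by
    intro x
    simp only [w, sub_mul, ite_mul, zero_mul, Finset.sum_sub_distrib, Finset.sum_ite_eq',
      Finset.mem_univ, if_true]
  have hderiv : deriv (fun z => ∑ l, w l * f1 z l) z0 ≠ 0 := by
    have h1 : (fun z => ∑ l, w l * f1 z l) = fun z => f1 z0 k * f1 z j - f1 z0 j * f1 z k :=
      funext fun z => hw (f1 z)
    rw [h1]
    have hd : ∀ l, HasDerivAt (fun z => f1 z l) (deriv (fun z => f z l) (h' z0) * deriv h' z0)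
        z0 := by
      intro l
      exact (hfj l (h' z0)).hasDerivAt.comp z0 (hh z0).hasDerivAt
    have hd2 : HasDerivAt (fun z => f1 z0 k * f1 z j - f1 z0 j * f1 z k)
        (f1 z0 k * (deriv (fun z => f z j) (h' z0) * deriv h' z0) -
          f1 z0 j * (deriv (fun z => f z k) (h' z0) * deriv h' z0)) z0 :=
      ((hd j).const_mul _).fun_sub ((hd k).const_mul _)
    rw [hd2.deriv]
    intro h2
    have h3 : (f (h' z0) k * deriv (fun z => f z j) (h' z0) -
        f (h' z0) j * deriv (fun z => f z k) (h' z0)) * deriv h' z0 = 0 := by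
      simp only [f1] at h2
      linear_combination h2
    rcases mul_eq_zero.1 h3 with h4 | h4
    · exact hz0 h4
    · exact hz0' h4
  obtain ⟨v, hv, hv1, ⟨k1, hk1⟩, hvF⟩ := rational_curve f1 hfE w z0 hderiv
  have hv1' : v 1 ≠ 0 := by
    rw [hv1]
    exact hf0 _
  obtain ⟨D, Q, c, hD, -, hQ, hc, hfin⟩ := reduce v hv hv1'
  have hmem : ∀ t i, eval₂ σ (fun j => (Q j).eval t) (F i) = 0 := by
    intro t i
    obtain ⟨d, hd⟩ := hF i
    have h1 := reduce_mem v D Q c hD hc hfin (MvPolynomial.map σ (F i)) (hd.map σ)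
      (fun t ht => hvF _ (fun z => by
        rw [← eval₂_eq_eval_map]
        exact hfF _ i) t ht) 1 t
    have h2 : (fun j => hom D (Q j) 1 t) = fun j => (Q j).eval t := by
      funext j
      rw [hom_of_ne D (Q j) (hD j) 1 t one_ne_zero]
      simp
    rw [h2, ← eval₂_eq_eval_map] at h1
    exact h1
  obtain ⟨c0, hc0⟩ := h Q hQ hmem (2 ^ k1) 1
  apply hk1
  have hcne : c 1 ≠ 0 := by
    intro h0
    apply hv1'
    funext j
    rw [hc 1 one_ne_zero j, h0, zero_mul]
    rfl
  have hsum1 : ∑ l, w l * v 1 l = 0 := by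
    rw [hw, hv1]
    ring
  have hsumQ : ∑ l, w l * (Q l).eval 1 = 0 := by
    have h1 : ∑ l, w l * v 1 l = c 1 * ∑ l, w l * (Q l).eval 1 := by
      rw [Finset.mul_sum]
      refine Finset.sum_congr rfl fun l _ => ?_
      rw [hc 1 one_ne_zero l]
      ring
    rw [hsum1] at h1
    exact (mul_eq_zero.1 h1.symm).resolve_left hcne
  rw [hsum1]
  have h2 : ∑ l, w l * v (2 ^ k1) l = c (2 ^ k1) * c0 * ∑ l, w l * (Q l).eval 1 := by
    rw [Finset.mul_sum]
    refine Finset.sum_congr rfl fun l _ => ?_
    have h3 := congrFun hc0 l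
    simp only [Pi.smul_apply, smul_eq_mul] at h3
    rw [hc _ (pow_ne_zero _ two_ne_zero) l, h3]
    ring
  rw [h2, hsumQ, mul_zero]

end Pool.Agent.TH957.Lang
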