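import Pool.Agent.H159R3.Exp.BLV
import Pool.Agent.H159R3.Exp.Rational
import Pool.Agent.H159R3.Lang.Basic
import Pool.Agent.H458.Sp.AllBaseProj

/-!
Entire curves of exponential type, rational curves and sparse rational points: definitions.
-/

set_option autoImplicit false

namespace Pool.Agent.TH957.Lang

open MvPolynomial NumberField Pool.Agent.H159R3.Exp Pool.Agent.H458.Sp
open scoped LinearAlgebra.Projectivization

variable {K : Type} [Field K] {ι : Type} {n : ℕ}

/-- Every holomorphic map of exponential type from the complex plane to `X_σ`, given by entire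
functions without common zeros, is constant. -/
def ExpHyperbolic (σ : K →+* ℂ) (F : ι → MvPolynomial (Fin (n + 1)) K) : Prop :=
  ∀ f : ℂ → Fin (n + 1) → ℂ, ExpType f → (∀ z, f z ≠ 0) →
    (∀ z i, eval₂ σ (f z) (F i) = 0) → ∀ z w, ∃ c : ℂ, f z = c • f w

/-- Every map from the complex plane to `X_σ` given by polynomials without common zeros is
constant: `X_σ` contains no rational curves. -/
def NoRationalCurve (σ : K →+* ℂ) (F : ι → MvPolynomial (Fin (n + 1)) K) : Prop :=
  ∀ Q : Fin (n + 1) → Polynomial ℂ, (∀ t, ∃ j, (Q j).eval t ≠ 0) →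
    (∀ t i, eval₂ σ (fun j => (Q j).eval t) (F i) = 0) →
    ∀ s t, ∃ c : ℂ, (fun j => (Q j).eval s) = c • fun j => (Q j).eval t

/-- The `L`-rational points of `X` with homogeneous coordinates that are `r`-sparse in some base
`b ≥ 2`: the vector of coordinates is a sum of `r` terms `b ^ (m j) • v j`, where the coordinates of
the digit vectors `v j` are algebraic integers in `L` of house at most `B`. -/
def sparse (F : ι → MvPolynomial (Fin (n + 1)) K) (L : Type) [Field L] [NumberField L]
    [Algebra K L] (r : ℕ) (B : ℝ) : Set (ℙ L (Fin (n + 1) → L)) :=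
  {P | ∃ (x : Fin (n + 1) → 𝓞 L) (h : (fun j => algebraMap (𝓞 L) L (x j)) ≠ 0),
    P = Projectivization.mk L (fun j => algebraMap (𝓞 L) L (x j)) h ∧
    (∀ i, aeval (fun j => algebraMap (𝓞 L) L (x j)) (F i) = 0) ∧
    ∃ b : ℕ, 2 ≤ b ∧ SparseVec b r B x}

/-- For every finite extension `L` of `K`, every number `r` of digits and every bound `B` for the
digits there are only finitely many sparse points over `L`. -/
def SparseFinite (F : ι → MvPolynomial (Fin (n + 1)) K) : Prop :=
  ∀ (L : Type) [Field L] [NumberField L] [Algebra K L] (r : ℕ) (B : ℝ), (sparse F L r B).Finite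

end Pool.Agent.TH957.Lang
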