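import Pool.Agent.TH957.Lang.Conv
import Pool.Agent.H159R3.Lang.Powers
import Pool.Agent.H159R3.Lang.Line

/-!
Hyperbolicity and sparse points for varieties given by sums of few high powers.
-/

set_option autoImplicit false

namespace Pool.Agent.TH957.Lang

open MvPolynomial NumberField Filter Pool.Agent.H159R3.Exp Pool.Agent.H458.Sp
open Pool.Agent.H159R3.Lang
open scoped LinearAlgebra.Projectivization Topology

variable {K : Type} [Field K] {ι : Type} {n : ℕ}

theorem hyperbolic_of_powers (σ : K →+* ℂ) (F : ι → MvPolynomial (Fin (n + 1)) K) (d : ι → ℕ)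
    (hF : ∀ i, (F i).IsHomogeneous (d i)) (hC : ∀ i, PowerSparse (F i))
    (h : NoRationalCurve σ F) : Hyperbolic σ F := by
  by_contra hσ
  obtain ⟨κ, b, j, k, hj, hk, hb, hmem⟩ := torus_curve F d hF hC σ hσ
  have hv1 : (fun t : ℂ => tpt κ b t) 1 ≠ 0 := by
    intro h0
    have h1 := congrFun h0 j
    simp [tpt, hj] at h1
  obtain ⟨D, Q, c, hD, -, hQ, hc, hfin⟩ := reduce (fun t : ℂ => tpt κ b t) (fun j => by
    refine ⟨0, Polynomial.C (κ j) * Polynomial.X ^ b j, fun t _ => ?_⟩
    simp [tpt]) hv1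
  have hmem' : ∀ t i, eval₂ σ (fun j => (Q j).eval t) (F i) = 0 := by
    intro t i
    have h1 := reduce_mem (fun t : ℂ => tpt κ b t) D Q c hD hc hfin (MvPolynomial.map σ (F i))
      ((hF i).map σ) (fun t ht => by rw [← eval₂_eq_eval_map]; exact hmem i t) 1 t
    have h2 : (fun j => hom D (Q j) 1 t) = fun j => (Q j).eval t := by
      funext j
      rw [hom_of_ne D (Q j) (hD j) 1 t one_ne_zero]
      simp
    rw [h2, ← eval₂_eq_eval_map] at h1
    exact h1
  obtain ⟨c0, hc0⟩ := h Q hQ hmem' 2 1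
  have e : ∀ j, κ j * 2 ^ b j * c 1 = c 2 * c0 * κ j := by
    intro j
    have h1 := hc 1 one_ne_zero j
    have h2 := hc 2 two_ne_zero j
    have h3 := congrFun hc0 j
    simp only [Pi.smul_apply, smul_eq_mul] at h3
    simp only [tpt, one_pow, mul_one] at h1 h2
    rw [h2, h3, h1]
    ring
  have hc1 : c 1 ≠ 0 := by
    intro h0
    have h1 := hc 1 one_ne_zero j
    simp only [tpt, one_pow, mul_one] at h1
    rw [h0, zero_mul] at h1
    exact hj h1
  have e1 : (2 : ℂ) ^ b j * c 1 = c 2 * c0 := by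
    apply mul_left_cancel₀ hj
    linear_combination e j
  have e2 : (2 : ℂ) ^ b k * c 1 = c 2 * c0 := by
    apply mul_left_cancel₀ hk
    linear_combination e k
  have e3 : (2 : ℂ) ^ b j = 2 ^ b k := mul_right_cancel₀ hc1 (e1.trans e2.symm)
  have e4 : ((2 ^ b j : ℕ) : ℂ) = ((2 ^ b k : ℕ) : ℂ) := by
    push_cast
    exact e3
  exact hb (Nat.pow_right_injective (le_refl 2) (Nat.cast_injective e4))

theorem hyperbolic_of_waring (σ : K →+* ℂ) (F : ι → MvPolynomial (Fin (n + 1)) K) (d : ι → ℕ)
    (hd : ∀ i, 0 < d i) (hC : ∀ i, SmallWaring σ (F i) (d i))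
    (h : NoRationalCurve σ F) : Hyperbolic σ F := by
  intro f hf hf0 hfF z1 z2
  by_contra hcon
  push Not at hcon
  have hnc : ∀ t : ℂ, f z1 + t • f z2 ≠ 0 := by
    intro t h0
    apply hcon (-t)
    rw [neg_smul]
    exact eq_neg_of_add_eq_zero_left h0
  have h1 := h (fun j => Polynomial.C (f z1 j) + Polynomial.X * Polynomial.C (f z2 j)) ?_ ?_ 0 1
  · obtain ⟨c, hc⟩ := h1
    have h2 : ∀ j, f z1 j = c * (f z1 j + f z2 j) := by
      intro j
      have h3 := congrFun hc j
      simpa using h3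
    have hc0 : c ≠ 0 := by
      intro h0
      apply hf0 z1
      funext j
      rw [h2 j, h0, zero_mul]
      rfl
    by_cases hc1 : c = 1
    · apply hf0 z2
      funext j
      have h3 := h2 j
      rw [hc1] at h3
      simp only [Pi.zero_apply]
      linear_combination -h3
    · have hc2 : 1 - c ≠ 0 := sub_ne_zero.2 (Ne.symm hc1)
      apply hcon (c / (1 - c))
      funext j
      rw [Pi.smul_apply, smul_eq_mul, div_mul_eq_mul_div, eq_div_iff hc2]
      linear_combination h2 j
  · intro t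
    obtain ⟨j, hj⟩ := Function.ne_iff.1 (hnc t)
    refine ⟨j, ?_⟩
    intro h3
    apply hj
    simp only [Polynomial.eval_add, Polynomial.eval_C, Polynomial.eval_mul,
      Polynomial.eval_X] at h3
    simpa using h3
  · intro t i
    have h2 := waring_span σ (F i) (hd i) (hC i) f hf (fun z => hfF z i) 1 t z1 z2
    rw [one_smul] at h2
    rw [← h2]
    congr 1
    funext j
    simp only [Polynomial.eval_add, Polynomial.eval_C, Polynomial.eval_mul,
      Polynomial.eval_X, Pi.add_apply, Pi.smul_apply, smul_eq_mul]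

end Pool.Agent.TH957.Lang
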